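import Pool.Agent.H28.GN.T3
import Pool.Agent.H96.LF.THC
import Pool.Agent.H79.LF.DVS

/-!
Row NUP of the board `thg_modules`: the law of the point of the `n`-side on the multiples of `p`.
-/

set_option autoImplicit false

open MeasureTheory ProbabilityTheory Filter Topology Finset
open scoped Nat ENNReal

namespace Pool.Agent.H10.GNG

open Pool.Agent.H28.GN
open Pool.Agent.H28.LF (Xi Yi shX shY flY xiY CompY)
open Pool.Agent.H96.LF (meas_xiY)
open Pool.Agent.H79.LF (flY_meas)

theorem nuP_apply (p : ℕ) (ν : Measure Yi) {C : Set Xi} (hC : MeasurableSet C) :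
    nuP p ν C = (p : ℝ≥0∞) * ν (flY p ∩ xiY p ⁻¹' C) := by
  unfold nuP
  rw [Measure.smul_apply, Measure.map_apply (meas_xiY p) hC,
    Measure.restrict_apply (meas_xiY p hC), smul_eq_mul, Set.inter_comm]

theorem nuP_real (p : ℕ) (ν : Measure Yi) {C : Set Xi} (hC : MeasurableSet C) :
    (nuP p ν).real C = p * ν.real (flY p ∩ xiY p ⁻¹' C) := by
  rw [measureReal_def, nuP_apply p ν hC, ENNReal.toReal_mul, ENNReal.toReal_natCast, measureReal_def]

theorem pf_NUP (hD : Pool.Agent.H28.LF.T_DVS) (hT : Pool.Agent.H28.LF.T_TPL) : T_NUP := by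
  intro ν p hC hp
  have hpr := hC.prob
  have hp0 : (0 : ℝ) < p := by exact_mod_cast hp.pos
  have hfl : ν.real (flY p) = 1 / p := (hD ν hC).1 p hp.pos
  have hprob : IsProbabilityMeasure (nuP p ν) := by
    refine ⟨?_⟩
    rw [nuP_apply p ν MeasurableSet.univ, Set.preimage_univ, Set.inter_univ]
    have h1 : ν (flY p) = ENNReal.ofReal (1 / p) := by
      rw [← hfl, measureReal_def, ENNReal.ofReal_toReal (measure_ne_top _ _)]
    rw [h1, ← ENNReal.ofReal_natCast, ← ENNReal.ofReal_mul hp0.le, mul_one_div_cancel hp0.ne',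
      ENNReal.ofReal_one]
  have hmp : MeasurePreserving shX (nuP p ν) (nuP p ν) := by
    refine ⟨shX.measurable, ?_⟩
    refine Measure.ext fun B hB => ?_
    rw [Measure.map_apply shX.measurable hB, nuP_apply p ν hB, nuP_apply p ν (shX.measurable hB)]
    congr 1
    have h1 := hT ν p 1 B hC hp hB
    rw [measureReal_def, measureReal_def] at h1
    exact (ENNReal.toReal_eq_toReal_iff' (measure_ne_top _ _) (measure_ne_top _ _)).1 h1
  -- invariant sets
  have hinvset : ∀ F : Set Xi, MeasurableSet F → shX ⁻¹' F = F →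
      xiY p ⁻¹' F =ᵐ[ν] (∅ : Set Yi) ∨ xiY p ⁻¹' F =ᵐ[ν] (Set.univ : Set Yi) := by
    intro F hF hinv
    have hms : MeasurableSet (xiY p ⁻¹' F) := meas_xiY p hF
    have heq : shY ⁻¹' (xiY p ⁻¹' F) =ᵐ[ν] xiY p ⁻¹' F := by
      refine Filter.Eventually.set_eq ?_
      filter_upwards [hC.stp p hp] with ω h2
      simp only [Set.mem_preimage]
      rcases h2 with h2 | h2
      · rw [h2]
      · rw [h2]
        have : shX (xiY p ω) ∈ F ↔ xiY p ω ∈ shX ⁻¹' F := Iff.rfl
        rw [this, hinv]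
    exact hC.erg.quasiErgodic.ae_empty_or_univ₀ hms.nullMeasurableSet heq
  have hnull : ∀ F : Set Xi, MeasurableSet F → ν (xiY p ⁻¹' F) = 0 → nuP p ν F = 0 := by
    intro F hF h0
    rw [nuP_apply p ν hF, measure_mono_null Set.inter_subset_right h0, mul_zero]
  refine ⟨hprob, ⟨hmp, ⟨?_⟩⟩, fun C hCm => nuP_real p ν hCm, ?_⟩
  · intro s hs hinv
    rw [Filter.eventuallyConst_set]
    rcases hinvset s hs hinv with h | h
    · right
      have h0 : ν (xiY p ⁻¹' s) = 0 := by
        rw [measure_congr h]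
        exact measure_empty
      exact measure_eq_zero_iff_ae_notMem.1 (hnull s hs h0)
    · left
      have h0 : ν (xiY p ⁻¹' sᶜ) = 0 := by
        rw [Set.preimage_compl, ← ae_eq_univ]
        exact h
      have h1 := measure_eq_zero_iff_ae_notMem.1 (hnull sᶜ hs.compl h0)
      filter_upwards [h1] with ω hω
      exact not_not.1 hω
  · intro F hF _ h1
    have h0 : ν (xiY p ⁻¹' Fᶜ) = 0 := by
      rw [Set.preimage_compl, ← ae_eq_univ]
      rw [measureReal_def] at h1
      have h2 : ν (xiY p ⁻¹' F) = 1 := by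
        rw [← ENNReal.ofReal_toReal (measure_ne_top ν (xiY p ⁻¹' F)), h1, ENNReal.ofReal_one]
      exact (ae_eq_univ_iff_measure_eq (meas_xiY p hF).nullMeasurableSet).2 (by rw [h2, measure_univ])
    have h2 := hnull Fᶜ hF.compl h0
    have h3 : (nuP p ν) F = 1 := (prob_compl_eq_zero_iff hF).1 h2
    rw [measureReal_def, h3, ENNReal.toReal_one]

end Pool.Agent.H10.GNG
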